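import Pool.Agent.KS6_54.MO.C

/-!
# The proportion of minimal overlapping permutations with a prescribed first entry: the limit
function

`p n m` is the proportion of minimal overlapping permutations among the permutations of length `n`
with first entry `m`. An earlier result says that for fixed `m` its limit does not depend on `m`.
Here all first entries are treated at the same time: there is a continuous function `L` on `[0, 1]`
such that `p n m - L ((m - 1) / (n - 1))` tends to zero uniformly in `m`. It is symmetric and not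
constant (`L (1 / 2) < L 0`), and it is given, with an explicit error, by Bernstein polynomials
whose coefficients are proportions of permutations of length `2 K`.

Proof. Let `g n m K` be the proportion with no overlap of length `2, …, K`. Removal of a middle
letter gives `n g (n + 1) m K = m g n (m - 1) K + (n - m) g n m K` for `n ≥ 2 K` (first entries
counted from `0`): this is the degree elevation of the Bernstein form, so the `g n m K`, `m < n`,
are the Bernstein coefficients of one polynomial `P_K`. As `g n m K` is a Lipschitz function of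
`m / n` with constant `K`, the variance of the binomial distribution gives
`|g n m K - P_K (m / (n - 1))| ≤ K / √(n - 1)`.
-/

set_option autoImplicit false

namespace Pool.Agent.Results.MP_d8535d_co.LimitFunction

open Filter Topology

/-- The permutation `τ` (of `0, …, n - 1`, in one-line notation) is minimal overlapping: there is
no `k` with `2 ≤ k ≤ n - 1` such that the first `k` and the last `k` entries are
order-isomorphic. -/
def MinOverlapping {n : ℕ} (τ : Equiv.Perm (Fin n)) : Prop :=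
  ¬ ∃ k, 2 ≤ k ∧ ∃ h : k < n, ∀ i j : Fin k,
    (τ ⟨i, by have := i.is_lt; omega⟩ < τ ⟨j, by have := j.is_lt; omega⟩ ↔
      τ ⟨n - k + i, by have := i.is_lt; omega⟩ < τ ⟨n - k + j, by have := j.is_lt; omega⟩)

/-- The proportion of minimal overlapping permutations among the permutations of length `n` whose
first entry is `m` (the entries of `τ` are counted from `0`, hence the `+ 1`). -/
noncomputable def p (n m : ℕ) : ℝ :=
  (Nat.card {τ : Equiv.Perm (Fin n) //
    MinOverlapping τ ∧ ∃ h : 0 < n, (τ ⟨0, h⟩ : ℕ) + 1 = m} : ℝ) / ((n - 1).factorial : ℝ)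

/-- There is no `k` with `2 ≤ k ≤ K` (and `k ≤ n - 1`) such that the first `k` and the last `k`
entries are order-isomorphic. -/
def NoOverlap (K : ℕ) {n : ℕ} (τ : Equiv.Perm (Fin n)) : Prop :=
  ¬ ∃ k, 2 ≤ k ∧ k ≤ K ∧ ∃ h : k < n, ∀ i j : Fin k,
    (τ ⟨i, by have := i.is_lt; omega⟩ < τ ⟨j, by have := j.is_lt; omega⟩ ↔
      τ ⟨n - k + i, by have := i.is_lt; omega⟩ < τ ⟨n - k + j, by have := j.is_lt; omega⟩)

/-- The proportion of the permutations without overlaps of length `2, …, K` among the permutations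
of length `2 K` whose first entry is `m`. -/
noncomputable def q (K m : ℕ) : ℝ :=
  (Nat.card {τ : Equiv.Perm (Fin (2 * K)) //
    NoOverlap K τ ∧ ∃ h : 0 < 2 * K, (τ ⟨0, h⟩ : ℕ) + 1 = m} : ℝ) / ((2 * K - 1).factorial : ℝ)

/-- The Bernstein polynomial of degree `2 K - 1` with the coefficients `q K 1, …, q K (2 K)`. -/
noncomputable def B (K : ℕ) (x : ℝ) : ℝ :=
  ∑ j ∈ Finset.range (2 * K),
    q K (j + 1) * (((2 * K - 1).choose j : ℝ) * x ^ j * (1 - x) ^ (2 * K - 1 - j))

open Pool.Agent.KS6_54.MO Pool.Agent.V11170.SemiBaxter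
open Pool.Agent.Results.MP_d8535d_co.ConstantLimit (C mem_C GoodK Ov g)

theorem noOverlap_iff {n K : ℕ} (hK : K < n) (τ : Equiv.Perm (Fin n)) :
    NoOverlap K τ ↔ GoodK n K (exP τ) := by
  unfold NoOverlap GoodK Ov
  constructor
  · intro h k hk hkn ho
    refine h ⟨k, hk, hkn, by omega, fun i j => ?_⟩
    have h1 := ho i j i.is_lt j.is_lt
    have hi := i.is_lt
    have hj := j.is_lt
    rw [exP_of_lt τ (by omega), exP_of_lt τ (by omega), exP_of_lt τ (by omega),
      exP_of_lt τ (by omega)] at h1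
    exact h1
  · rintro h ⟨k, hk, hkK, hkn, ho⟩
    refine h k hk hkK (fun i j hi hj => ?_)
    have h1 := ho ⟨i, hi⟩ ⟨j, hj⟩
    rw [exP_of_lt τ (by omega), exP_of_lt τ (by omega), exP_of_lt τ (by omega),
      exP_of_lt τ (by omega)]
    exact h1

theorem q_eq {K m : ℕ} (hK : 1 ≤ K) : q K (m + 1) = g (2 * K) m K := by
  unfold q g
  congr 2
  classical
  rw [Nat.card_eq_fintype_card, Fintype.card_subtype]
  congr 1
  ext τ
  rw [Finset.mem_filter, mem_C, noOverlap_iff (by omega)]
  constructor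
  · rintro ⟨_, h1, h2, h3⟩
    rw [exP_of_lt τ h2]
    exact ⟨by omega, h1⟩
  · rintro ⟨h1, h2⟩
    rw [exP_of_lt τ (by omega)] at h1
    exact ⟨Finset.mem_univ _, h2, by omega, by omega⟩

theorem B_eq {K : ℕ} (hK : 1 ≤ K) (x : ℝ) : B K x = PK K x := by
  unfold B PK BP bb
  rw [show 2 * K - 1 + 1 = 2 * K by omega]
  exact Finset.sum_congr rfl fun j _ => by rw [q_eq hK]

theorem unif (ε : ℝ) (hε : 0 < ε) : ∃ N : ℕ, ∀ n, N ≤ n → ∀ m, 1 ≤ m → m ≤ n →
    |p n m - LL (((m : ℝ) - 1) / ((n : ℝ) - 1))| < ε := by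
  obtain ⟨N, hN⟩ := p_unif ε hε
  refine ⟨N, fun n hn m h1 hm => ?_⟩
  obtain ⟨m, rfl⟩ : ∃ m', m = m' + 1 := ⟨m - 1, by omega⟩
  have h := hN n hn m (by omega)
  rw [Nat.cast_sub (show 1 ≤ n by omega)] at h
  rw [show ((m + 1 : ℕ) : ℝ) - 1 = m by push_cast; ring]
  exact_mod_cast h

theorem seq (m : ℕ → ℕ) (α : ℝ) (hm : ∀ᶠ n in atTop, 1 ≤ m n ∧ m n ≤ n)
    (hα : Tendsto (fun n => (m n : ℝ) / n) atTop (𝓝 α)) :
    Tendsto (fun n => p n (m n)) atTop (𝓝 (LL α)) := by
  have hmem : α ∈ Set.Icc (0 : ℝ) 1 := by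
    refine isClosed_Icc.mem_of_tendsto hα ?_
    filter_upwards [hm, eventually_gt_atTop 0] with n hn hn0
    have h0 : (0 : ℝ) < n := by exact_mod_cast hn0
    refine ⟨by positivity, ?_⟩
    rw [div_le_one h0]
    exact_mod_cast hn.2
  have h1 : Tendsto (fun n : ℕ => ((m n : ℝ) - 1) / ((n : ℝ) - 1)) atTop (𝓝 α) := by
    have e1 : Tendsto (fun n : ℕ => (1 : ℝ) / n) atTop (𝓝 0) := tendsto_one_div_atTop_nhds_zero_nat
    have e2 : Tendsto (fun n : ℕ => ((m n : ℝ) / n - 1 / n) / (1 - 1 / n)) atTop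
        (𝓝 ((α - 0) / (1 - 0))) :=
      (hα.sub e1).div (tendsto_const_nhds.sub e1) (by norm_num)
    rw [sub_zero, sub_zero, div_one] at e2
    refine e2.congr' ?_
    filter_upwards [eventually_gt_atTop 1] with n hn
    have h0 : (1 : ℝ) < n := by exact_mod_cast hn
    have h2 : (n : ℝ) - 1 ≠ 0 := by linarith
    have h3 : (n : ℝ) ≠ 0 := by linarith
    field_simp
  have h2 : ∀ᶠ n : ℕ in atTop, ((m n : ℝ) - 1) / ((n : ℝ) - 1) ∈ Set.Icc (0 : ℝ) 1 := by
    filter_upwards [hm, eventually_gt_atTop 1] with n hn hn1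
    have h0 : (1 : ℝ) < n := by exact_mod_cast hn1
    have h3 : (1 : ℝ) ≤ m n := by exact_mod_cast hn.1
    have h4 : (m n : ℝ) ≤ n := by exact_mod_cast hn.2
    refine ⟨div_nonneg (by linarith) (by linarith), ?_⟩
    rw [div_le_one (by linarith)]
    linarith
  have h3 : Tendsto (fun n : ℕ => LL (((m n : ℝ) - 1) / ((n : ℝ) - 1))) atTop (𝓝 (LL α)) :=
    (continuousOn_LL α hmem).tendsto.comp
      (tendsto_nhdsWithin_iff.mpr ⟨h1, h2⟩)
  have h4 : Tendsto (fun n : ℕ => p n (m n) - LL (((m n : ℝ) - 1) / ((n : ℝ) - 1))) atTop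
      (𝓝 0) := by
    rw [Metric.tendsto_atTop]
    intro ε hε
    obtain ⟨N, hN⟩ := unif ε hε
    obtain ⟨N', hN'⟩ := eventually_atTop.mp hm
    refine ⟨max N N', fun n hn => ?_⟩
    rw [Real.dist_eq, sub_zero]
    obtain ⟨h5, h6⟩ := hN' n (le_trans (le_max_right _ _) hn)
    exact hN n (le_trans (le_max_left _ _) hn) _ h5 h6
  have h5 := h4.add h3
  rw [zero_add] at h5
  refine h5.congr fun n => ?_
  ring

/-- **The limit function.** There is a function `L`, continuous on `[0, 1]`, such that the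
proportion `p n m` of the minimal overlapping permutations among the permutations of length `n` with
first entry `m` satisfies `p n m = L ((m - 1) / (n - 1)) + o(1)`, uniformly in `1 ≤ m ≤ n`. So
`p n (m n)` tends to `L α` if `m n / n` tends to `α`; in particular for fixed `m`, and more
generally for `m n = o(n)`, the limit is `L 0`. The function is symmetric, `L (1 / 2) < L 0`, and
for `K ≥ 3` it differs by at most `(e - ∑_{k ≤ K} 1 / k!) / 2` from the Bernstein polynomial `B K`.
-/
theorem result : ∃ L : ℝ → ℝ, ContinuousOn L (Set.Icc 0 1) ∧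
    (∀ ε : ℝ, 0 < ε → ∃ N : ℕ, ∀ n, N ≤ n → ∀ m, 1 ≤ m → m ≤ n →
      |p n m - L (((m : ℝ) - 1) / ((n : ℝ) - 1))| < ε) ∧
    (∀ (m : ℕ → ℕ) (α : ℝ), (∀ᶠ n in atTop, 1 ≤ m n ∧ m n ≤ n) →
      Tendsto (fun n => (m n : ℝ) / n) atTop (𝓝 α) →
        Tendsto (fun n => p n (m n)) atTop (𝓝 (L α))) ∧
    (∀ m, 1 ≤ m → Tendsto (fun n => p n m) atTop (𝓝 (L 0))) ∧
    (∀ x, 0 ≤ x → x ≤ 1 → L (1 - x) = L x) ∧
    L (1 / 2) < L 0 ∧
    (∀ K, 3 ≤ K → ∀ x, 0 ≤ x → x ≤ 1 → 0 ≤ B K x - L x ∧ B K x - L x ≤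
      (Real.exp 1 - ∑ k ∈ Finset.range (K + 1), 1 / (k.factorial : ℝ)) / 2) := by
  refine ⟨LL, continuousOn_LL, unif, seq, fun m hm => ?_, fun x _ _ => LL_symm x, LL_half_lt,
    fun K hK x h0 h1 => ?_⟩
  · refine seq (fun _ => m) 0 ?_ ?_
    · filter_upwards [eventually_ge_atTop m] with n hn
      exact ⟨hm, hn⟩
    · exact tendsto_const_div_atTop_nhds_zero_nat (m : ℝ)
  · have h2 := LL_le hK h0 h1
    have h3 := le_LL hK h0 h1
    unfold TT at h3
    rw [tsum_fac] at h3
    rw [B_eq (by omega)]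
    constructor <;> linarith

end Pool.Agent.Results.MP_d8535d_co.LimitFunction
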